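import Mathlib

/-!
# Products of strong d-spaces need not be strong d-spaces

We construct a countable strong d-space `Z` whose square `Z × Z`, and whose powers `Z ^ I` for all
index sets `I` with at least two elements, are not strong d-spaces.

`Z` has the points `d 0 < d 1 < ... < a < k i` and `x < k i`, `x < p m`, `d n < p m` for `n ≤ m`;
the chain `d n` converges to `a`, and the sequence `p m` converges to `k 0`.
-/

set_option autoImplicit false

open Set Topology TopologicalSpace

namespace Pool.Agent.Results.MP_e2e219_gt.StrongDSquare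

/-- The principal upper set `↑x` in the specialization order `x ≤ y ↔ x ∈ cl {y}`. -/
def up {X : Type*} [TopologicalSpace X] (x : X) : Set X := {y | x ∈ closure ({y} : Set X)}

/-- Strong d-spaces: `T₀` spaces such that for each set `D` directed in the specialization order,
each point `x` and each open set `U`, if `(⋂ d ∈ D, ↑d) ∩ ↑x ⊆ U` then `↑d ∩ ↑x ⊆ U` for some
`d ∈ D`. -/
structure IsStrongDSpace (X : Type*) [TopologicalSpace X] : Prop where
  t0 : T0Space X
  cond : ∀ D : Set X, D.Nonempty → (∀ a ∈ D, ∀ b ∈ D, ∃ c ∈ D, c ∈ up a ∧ c ∈ up b) →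
    ∀ (x : X) (U : Set X), IsOpen U → (⋂ d ∈ D, up d) ∩ up x ⊆ U → ∃ d ∈ D, up d ∩ up x ⊆ U

/-- The points of the space. -/
inductive Z : Type
  | d (n : ℕ)
  | a
  | x
  | k (n : ℕ)
  | p (n : ℕ)

open Z

/-- The open sets of the space. -/
def op (U : Set Z) : Prop :=
  (∀ n, d n ∈ U → ∀ m, n ≤ m → d m ∈ U ∧ p m ∈ U) ∧ ((∃ n, d n ∈ U) ↔ a ∈ U) ∧
  (a ∈ U → ∀ i, k i ∈ U) ∧ (x ∈ U → (∀ i, k i ∈ U) ∧ ∀ m, p m ∈ U) ∧
  (k 0 ∈ U → ∃ N, ∀ m, N ≤ m → p m ∈ U)

instance : TopologicalSpace Z where
  IsOpen := op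
  isOpen_univ := by
    refine ⟨fun _ _ _ _ => ⟨trivial, trivial⟩, ⟨fun _ => trivial, fun _ => ⟨0, trivial⟩⟩,
      fun _ _ => trivial, fun _ => ⟨fun _ => trivial, fun _ => trivial⟩,
      fun _ => ⟨0, fun _ _ => trivial⟩⟩
  isOpen_inter := by
    rintro U V ⟨u1, u2, u3, u4, u5⟩ ⟨v1, v2, v3, v4, v5⟩
    refine ⟨fun n h m hm => ?_, ⟨?_, ?_⟩, ?_, ?_, ?_⟩
    · exact ⟨⟨(u1 n h.1 m hm).1, (v1 n h.2 m hm).1⟩, ⟨(u1 n h.1 m hm).2, (v1 n h.2 m hm).2⟩⟩
    · rintro ⟨n, h⟩
      exact ⟨u2.1 ⟨n, h.1⟩, v2.1 ⟨n, h.2⟩⟩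
    · rintro ⟨h1, h2⟩
      obtain ⟨n, hn⟩ := u2.2 h1
      obtain ⟨m, hm⟩ := v2.2 h2
      exact ⟨max n m, (u1 n hn _ (le_max_left _ _)).1, (v1 m hm _ (le_max_right _ _)).1⟩
    · exact fun h i => ⟨u3 h.1 i, v3 h.2 i⟩
    · exact fun h => ⟨fun i => ⟨(u4 h.1).1 i, (v4 h.2).1 i⟩, fun i => ⟨(u4 h.1).2 i, (v4 h.2).2 i⟩⟩
    · rintro ⟨h1, h2⟩
      obtain ⟨n, hn⟩ := u5 h1
      obtain ⟨m, hm⟩ := v5 h2
      exact ⟨max n m, fun j hj => ⟨hn j ((le_max_left _ _).trans hj),
        hm j ((le_max_right _ _).trans hj)⟩⟩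
  isOpen_sUnion := by
    intro S hS
    refine ⟨?_, ⟨?_, ?_⟩, ?_, ?_, ?_⟩
    · rintro n ⟨U, hU, h⟩ m hm
      exact ⟨⟨U, hU, ((hS U hU).1 n h m hm).1⟩, ⟨U, hU, ((hS U hU).1 n h m hm).2⟩⟩
    · rintro ⟨n, U, hU, h⟩
      exact ⟨U, hU, (hS U hU).2.1.1 ⟨n, h⟩⟩
    · rintro ⟨U, hU, h⟩
      obtain ⟨n, hn⟩ := (hS U hU).2.1.2 h
      exact ⟨n, U, hU, hn⟩
    · rintro ⟨U, hU, h⟩ i
      exact ⟨U, hU, (hS U hU).2.2.1 h i⟩
    · rintro ⟨U, hU, h⟩
      exact ⟨fun i => ⟨U, hU, ((hS U hU).2.2.2.1 h).1 i⟩,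
        fun i => ⟨U, hU, ((hS U hU).2.2.2.1 h).2 i⟩⟩
    · rintro ⟨U, hU, h⟩
      obtain ⟨N, hN⟩ := (hS U hU).2.2.2.2 h
      exact ⟨N, fun m hm => ⟨U, hU, hN m hm⟩⟩

lemma isOpen_iff' (U : Set Z) : IsOpen U ↔ op U := Iff.rfl

/-- The order of `Z`. -/
def le : Z → Z → Prop
  | d n, d m => n ≤ m
  | d _, a => True
  | d _, k _ => True
  | d n, p m => n ≤ m
  | a, a => True
  | a, k _ => True
  | x, x => True
  | x, k _ => True
  | x, p _ => True
  | k i, k j => i = j
  | p i, p j => i = j
  | _, _ => False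

lemma mem_up_iff (u v : Z) : v ∈ up u ↔ le u v := by
  constructor
  · intro h
    by_contra hle
    have hop : IsOpen {z : Z | ¬ le z v} := by
      rw [isOpen_iff']
      refine ⟨?_, ⟨?_, ?_⟩, ?_, ?_, ?_⟩ <;> cases v <;> simp [le] <;> try omega
      all_goals first
        | exact ⟨_, Nat.lt_succ_self _⟩
        | exact ⟨_, fun m hm => (Nat.lt_of_lt_of_le (Nat.lt_succ_self _) hm).ne'⟩
    have h1 := mem_closure_iff.1 h _ hop hle
    obtain ⟨z, hz1, hz2⟩ := h1
    rw [mem_singleton_iff] at hz2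
    subst hz2
    apply hz1
    cases z <;> simp [le]
  · intro h
    show u ∈ closure {v}
    rw [mem_closure_iff]
    intro U hU hu
    refine ⟨v, ?_, rfl⟩
    obtain ⟨u1, u2, u3, u4, u5⟩ := hU
    cases u <;> cases v <;> simp only [le] at h <;> try (exact h.elim)
    · exact (u1 _ hu _ h).1
    · exact u2.1 ⟨_, hu⟩
    · exact u3 (u2.1 ⟨_, hu⟩) _
    · exact (u1 _ hu _ h).2
    · exact hu
    · exact u3 hu _
    · exact hu
    · exact (u4 hu).1 _
    · exact (u4 hu).2 _
    · exact h ▸ hu
    · exact h ▸ hu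

/-- Each directed set without a greatest element is an unbounded subset of the chain. -/
lemma directed_cases (D : Set Z) (hne : D.Nonempty)
    (hD : ∀ u ∈ D, ∀ v ∈ D, ∃ c ∈ D, c ∈ up u ∧ c ∈ up v) :
    (∃ m ∈ D, ∀ z ∈ D, le z m) ∨ ((∀ z ∈ D, ∃ n, z = d n) ∧ ∀ n, ∃ m, n ≤ m ∧ d m ∈ D) := by
  simp only [mem_up_iff] at hD
  by_cases hmax : ∃ m ∈ D, ∀ z ∈ D, le z m
  · exact Or.inl hmax
  · right
    have hk : ∀ i, k i ∉ D := by
      intro i hi
      apply hmax
      refine ⟨k i, hi, fun z hz => ?_⟩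
      obtain ⟨c, hc, h1, h2⟩ := hD _ hi _ hz
      cases c <;> simp only [le] at h1
      subst h1
      exact h2
    have hp : ∀ i, p i ∉ D := by
      intro i hi
      apply hmax
      refine ⟨p i, hi, fun z hz => ?_⟩
      obtain ⟨c, hc, h1, h2⟩ := hD _ hi _ hz
      cases c <;> simp only [le] at h1
      subst h1
      exact h2
    have ha : a ∉ D := by
      intro hi
      apply hmax
      refine ⟨a, hi, fun z hz => ?_⟩
      obtain ⟨c, hc, h1, h2⟩ := hD _ hi _ hz
      cases c <;> simp only [le] at h1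
      · exact h2
      · exact (hk _ hc).elim
    have hx : x ∉ D := by
      intro hi
      apply hmax
      refine ⟨x, hi, fun z hz => ?_⟩
      obtain ⟨c, hc, h1, h2⟩ := hD _ hi _ hz
      cases c <;> simp only [le] at h1
      · exact h2
      · exact (hk _ hc).elim
      · exact (hp _ hc).elim
    have hd : ∀ z ∈ D, ∃ n, z = d n := by
      intro z hz
      cases z
      · exact ⟨_, rfl⟩
      · exact (ha hz).elim
      · exact (hx hz).elim
      · exact (hk _ hz).elim
      · exact (hp _ hz).elim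
    refine ⟨hd, ?_⟩
    intro n
    by_contra hcon
    push Not at hcon
    -- the indices are bounded by `n`, take the largest
    classical
    have hfin : {m | d m ∈ D}.Finite := by
      apply (Set.finite_lt_nat n).subset
      intro m hm
      by_contra h
      exact hcon m (not_lt.1 h) hm
    obtain ⟨z0, hz0⟩ := hne
    obtain ⟨m0, rfl⟩ := hd z0 hz0
    obtain ⟨m, hm, hmm⟩ := hfin.exists_maximalFor id _ ⟨m0, hz0⟩
    apply hmax
    refine ⟨d m, hm, fun z hz => ?_⟩
    obtain ⟨j, rfl⟩ := hd z hz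
    show j ≤ m
    by_contra hlt
    push Not at hlt
    have := hmm (j := j) hz hlt.le
    simp only [id] at this
    omega

theorem isStrongDSpace_Z : IsStrongDSpace Z := by
  refine ⟨⟨?_⟩, ?_⟩
  · intro u v huv
    have h1 : le u v := by
      rw [← mem_up_iff]
      exact huv.specializes'.mem_closure
    have h2 : le v u := by
      rw [← mem_up_iff]
      exact huv.specializes.mem_closure
    cases u <;> cases v <;> simp only [le] at h1 h2
    · rw [le_antisymm h1 h2]
    · rfl
    · rfl
    · rw [h1]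
    · rw [h1]
  · intro D hne hD z U hU hsub
    rcases directed_cases D hne hD with ⟨m, hm, hmax⟩ | ⟨hd, hunb⟩
    · refine ⟨m, hm, ?_⟩
      refine subset_trans ?_ hsub
      rintro w ⟨h1, h2⟩
      refine ⟨?_, h2⟩
      rw [mem_iInter₂]
      intro e he
      have he' := hmax e he
      rw [mem_up_iff] at h1 ⊢
      -- transitivity
      cases e <;> cases m <;> simp only [le] at he' <;> cases w <;> simp only [le] at h1 ⊢ <;>
        omega
    · have hinter : ∀ w, w ∈ (⋂ e ∈ D, up e) ↔ (w = a ∨ ∃ i, w = k i) := by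
        intro w
        rw [mem_iInter₂]
        constructor
        · intro h
          cases w with
          | d n =>
            obtain ⟨m, hnm, hm⟩ := hunb (n + 1)
            have := h _ hm
            rw [mem_up_iff] at this
            simp only [le] at this
            omega
          | a => exact Or.inl rfl
          | x =>
            obtain ⟨m, hnm, hm⟩ := hunb 0
            have := h _ hm
            rw [mem_up_iff] at this
            simp only [le] at this
          | k i => exact Or.inr ⟨i, rfl⟩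
          | p n =>
            obtain ⟨m, hnm, hm⟩ := hunb (n + 1)
            have := h _ hm
            rw [mem_up_iff] at this
            simp only [le] at this
            omega
        · rintro (rfl | ⟨i, rfl⟩) e he
          · obtain ⟨n, rfl⟩ := hd e he
            rw [mem_up_iff]
            trivial
          · obtain ⟨n, rfl⟩ := hd e he
            rw [mem_up_iff]
            trivial
      obtain ⟨u1, u2, u3, u4, u5⟩ := hU
      -- the case where the open set contains `a`
      have hcase : a ∈ U → ∃ e ∈ D, up e ∩ up z ⊆ U := by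
        intro ha
        obtain ⟨n, hn⟩ := u2.2 ha
        obtain ⟨m, hnm, hm⟩ := hunb n
        refine ⟨d m, hm, ?_⟩
        rintro w ⟨h1, -⟩
        rw [mem_up_iff] at h1
        cases w <;> simp only [le] at h1
        · exact (u1 _ hn _ (hnm.trans h1)).1
        · exact ha
        · exact u3 ha _
        · exact (u1 _ hn _ (hnm.trans h1)).2
      cases z with
      | d j =>
        apply hcase
        apply hsub
        refine ⟨(hinter _).2 (Or.inl rfl), ?_⟩
        rw [mem_up_iff]
        trivial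
      | a =>
        apply hcase
        apply hsub
        refine ⟨(hinter _).2 (Or.inl rfl), ?_⟩
        rw [mem_up_iff]
        trivial
      | x =>
        have hk : ∀ i, k i ∈ U := by
          intro i
          apply hsub
          refine ⟨(hinter _).2 (Or.inr ⟨i, rfl⟩), ?_⟩
          rw [mem_up_iff]
          trivial
        obtain ⟨N, hN⟩ := u5 (hk 0)
        obtain ⟨m, hnm, hm⟩ := hunb N
        refine ⟨d m, hm, ?_⟩
        rintro w ⟨h1, h2⟩
        rw [mem_up_iff] at h1 h2
        cases w <;> simp only [le] at h1 h2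
        · exact hk _
        · exact hN _ (hnm.trans h1)
      | k i =>
        have hk : k i ∈ U := by
          apply hsub
          refine ⟨(hinter _).2 (Or.inr ⟨i, rfl⟩), ?_⟩
          rw [mem_up_iff]
          simp [le]
        obtain ⟨m, hnm, hm⟩ := hunb 0
        refine ⟨d m, hm, ?_⟩
        rintro w ⟨h1, h2⟩
        rw [mem_up_iff] at h1 h2
        cases w <;> simp only [le] at h1 h2
        subst h2
        exact hk
      | p i =>
        obtain ⟨m, hnm, hm⟩ := hunb (i + 1)
        refine ⟨d m, hm, ?_⟩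
        rintro w ⟨h1, h2⟩
        rw [mem_up_iff] at h1 h2
        cases w <;> simp only [le] at h1 h2
        subst h2
        omega

lemma mem_up_prod {X Y : Type*} [TopologicalSpace X] [TopologicalSpace Y] (u v : X × Y) :
    v ∈ up u ↔ v.1 ∈ up u.1 ∧ v.2 ∈ up u.2 := by
  show u ∈ closure {v} ↔ u.1 ∈ closure {v.1} ∧ u.2 ∈ closure {v.2}
  rw [← specializes_iff_mem_closure, ← specializes_iff_mem_closure, ← specializes_iff_mem_closure]
  exact specializes_prod

lemma mem_up_pi {I : Type*} {X : I → Type*} [∀ i, TopologicalSpace (X i)] (u v : ∀ i, X i) :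
    v ∈ up u ↔ ∀ i, v i ∈ up (u i) := by
  show u ∈ closure {v} ↔ ∀ i, u i ∈ closure {v i}
  simp only [← specializes_iff_mem_closure]
  exact specializes_pi

/-- The neighbourhoods of `k 0`. -/
def V (j : ℕ) : Set Z := {z | z = k 0 ∨ ∃ m, j < m ∧ z = p m}

lemma isOpen_V (j : ℕ) : IsOpen (V j) := by
  rw [isOpen_iff']
  refine ⟨?_, ⟨?_, ?_⟩, ?_, ?_, ?_⟩ <;> simp [V]
  exact ⟨j + 1, fun m hm => by omega⟩

lemma isOpen_k (j : ℕ) : IsOpen ({k (j + 1)} : Set Z) := by
  rw [isOpen_iff']
  refine ⟨?_, ⟨?_, ?_⟩, ?_, ?_, ?_⟩ <;> simp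

/-- The open subset of the square. -/
def W : Set (Z × Z) :=
  (⋃ j, V j ×ˢ {k (j + 1)}) ∪ (⋃ i, ⋃ j, {k (i + 1)} ×ˢ {k (j + 1)}) ∪ univ ×ˢ V 0

lemma isOpen_W : IsOpen W := by
  refine (IsOpen.union (isOpen_iUnion fun j => ?_) (isOpen_iUnion fun i => isOpen_iUnion fun j => ?_)).union ?_
  · exact (isOpen_V j).prod (isOpen_k j)
  · exact (isOpen_k i).prod (isOpen_k j)
  · exact isOpen_univ.prod (isOpen_V 0)

lemma k_mem_W (i j : ℕ) : (k i, k j) ∈ W := by
  rcases j with _ | j
  · right
    exact ⟨trivial, Or.inl rfl⟩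
  · rcases i with _ | i
    · left; left
      exact mem_iUnion.2 ⟨j, Or.inl rfl, rfl⟩
    · left; right
      exact mem_iUnion.2 ⟨i, mem_iUnion.2 ⟨j, rfl, rfl⟩⟩

lemma p_notMem_W (n : ℕ) : (p n, k (n + 1)) ∉ W := by
  rintro ((h | h) | h)
  · obtain ⟨j, h1, h2⟩ := mem_iUnion.1 h
    simp only [mem_singleton_iff, k.injEq] at h2
    rcases h1 with h1 | ⟨m, hm, h1⟩
    · cases h1
    · simp only [p.injEq] at h1
      omega
  · obtain ⟨i, h⟩ := mem_iUnion.1 h
    obtain ⟨j, h1, h2⟩ := mem_iUnion.1 h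
    cases h1
  · rcases h.2 with h | ⟨m, hm, h⟩
    · simp at h
    · cases h

lemma not_isStrongDSpace_prod : ¬ IsStrongDSpace (Z × Z) := by
  intro h
  obtain ⟨e, ⟨n, rfl⟩, hn⟩ := h.cond (range fun n => (d n, a)) (range_nonempty _) (by
    rintro _ ⟨n, rfl⟩ _ ⟨m, rfl⟩
    refine ⟨_, ⟨max n m, rfl⟩, ?_, ?_⟩
    · rw [mem_up_prod, mem_up_iff, mem_up_iff]
      exact ⟨le_max_left _ _, trivial⟩
    · rw [mem_up_prod, mem_up_iff, mem_up_iff]
      exact ⟨le_max_right _ _, trivial⟩) (x, x) W isOpen_W (by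
    rintro ⟨u, v⟩ ⟨h1, h2⟩
    rw [mem_iInter₂] at h1
    rw [mem_up_prod, mem_up_iff, mem_up_iff] at h2
    have h3 : ∀ n, le (d n) u ∧ le a v := by
      intro n
      have := h1 _ ⟨n, rfl⟩
      rwa [mem_up_prod, mem_up_iff, mem_up_iff] at this
    obtain ⟨h2, h4⟩ := h2
    cases v <;> simp only [le] at h4 h3 <;> try simp at h3
    simp only at h2
    cases u <;> simp only [le] at h2
    · simp only at h3; exact (h3 0).elim
    · exact k_mem_W _ _
    · rename_i m
      have := h3 (m + 1)
      simp only at this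
      omega)
  apply p_notMem_W n
  apply hn
  refine ⟨?_, ?_⟩
  · rw [mem_up_prod, mem_up_iff, mem_up_iff]
    exact ⟨le_refl _, trivial⟩
  · rw [mem_up_prod, mem_up_iff, mem_up_iff]
    exact ⟨trivial, trivial⟩

lemma not_isStrongDSpace_pi {I : Type*} (hI : Nontrivial I) : ¬ IsStrongDSpace (I → Z) := by
  intro h
  classical
  obtain ⟨i, j, hij⟩ := hI.exists_pair_ne
  have hW : IsOpen {f : I → Z | (f i, f j) ∈ W} :=
    isOpen_W.preimage ((continuous_apply i).prodMk (continuous_apply j))
  let D : ℕ → I → Z := fun n t => if t = i then d n else if t = j then a else k 1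
  let g : I → Z := fun t => if t = i then x else if t = j then x else k 1
  have Di : ∀ n, D n i = d n := fun n => if_pos rfl
  have Dj : ∀ n, D n j = a := fun n => by simp [D, hij.symm]
  have gi : g i = x := if_pos rfl
  have gj : g j = x := by simp [g, hij.symm]
  have hDm : ∀ n m, n ≤ m → D m ∈ up (D n) := by
    intro n m hnm
    rw [mem_up_pi]
    intro t
    rw [mem_up_iff]
    by_cases h1 : t = i
    · simp only [D, h1, if_true]
      exact hnm
    · by_cases h2 : t = j
      · simp only [D, h2, hij.symm, if_true, if_false]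
        trivial
      · simp [D, h1, h2, le]
  obtain ⟨e, ⟨n, rfl⟩, hn⟩ := h.cond (range D) (range_nonempty _) (by
    rintro _ ⟨n, rfl⟩ _ ⟨m, rfl⟩
    exact ⟨_, ⟨max n m, rfl⟩, hDm _ _ (le_max_left _ _), hDm _ _ (le_max_right _ _)⟩) g _ hW (by
    rintro f ⟨h1, h2⟩
    rw [mem_iInter₂] at h1
    have h3 : ∀ n, le (d n) (f i) ∧ le a (f j) := by
      intro n
      have h4 := h1 _ ⟨n, rfl⟩
      rw [mem_up_pi] at h4
      have h5 := h4 i
      have h6 := h4 j
      rw [Di, mem_up_iff] at h5
      rw [Dj, mem_up_iff] at h6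
      exact ⟨h5, h6⟩
    rw [mem_up_pi] at h2
    have h5 := h2 i
    have h6 := h2 j
    rw [gi, mem_up_iff] at h5
    rw [gj, mem_up_iff] at h6
    show (f i, f j) ∈ W
    generalize f i = u at *
    generalize f j = v at *
    cases v <;> simp only [le] at h6 h3 <;> try simp at h3
    cases u <;> simp only [le] at h5
    · exact (h3 0).elim
    · exact k_mem_W _ _
    · rename_i m
      have := h3 (m + 1)
      simp only at this
      omega)
  let q : I → Z := fun t => if t = i then p n else if t = j then k (n + 1) else k 1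
  have qi : q i = p n := if_pos rfl
  have qj : q j = k (n + 1) := by simp [q, hij.symm]
  apply p_notMem_W n
  have : q ∈ {f : I → Z | (f i, f j) ∈ W} := by
    apply hn
    refine ⟨?_, ?_⟩
    · rw [mem_up_pi]
      intro t
      rw [mem_up_iff]
      by_cases h1 : t = i
      · simp only [D, q, h1, if_true]
        exact le_refl _
      · by_cases h2 : t = j
        · simp only [D, q, h2, hij.symm, if_true, if_false]
          trivial
        · simp [D, q, h1, h2, le]
    · rw [mem_up_pi]
      intro t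
      rw [mem_up_iff]
      by_cases h1 : t = i
      · simp only [g, q, h1, if_true]
        trivial
      · by_cases h2 : t = j
        · simp only [g, q, h2, hij.symm, if_true, if_false]
          trivial
        · simp [g, q, h1, h2, le]
  rw [mem_ofPred_eq, qi, qj] at this
  exact this

instance : Countable Z := by
  let f : Z → ℕ × ℕ := fun z => match z with
    | d n => (0, n)
    | a => (1, 0)
    | x => (2, 0)
    | k n => (3, n)
    | p n => (4, n)
  have hf : Function.Injective f := by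
    intro u v h
    cases u <;> cases v <;> simp [f] at h ⊢ <;> exact h
  exact hf.countable

/-- There is a countable strong d-space `Z` whose square `Z × Z`, and whose power `Z ^ I` for each
index set `I` with more than one element, are not strong d-spaces. -/
theorem result : ∃ (Z : Type) (_ : TopologicalSpace Z),
    Countable Z ∧ IsStrongDSpace Z ∧ ¬ IsStrongDSpace (Z × Z) ∧
      ∀ I : Type, Nontrivial I → ¬ IsStrongDSpace (I → Z) :=
  ⟨Z, inferInstance, inferInstance, isStrongDSpace_Z, not_isStrongDSpace_prod,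
    fun _ hI => not_isStrongDSpace_pi hI⟩

end Pool.Agent.Results.MP_e2e219_gt.StrongDSquare
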